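import Pool.Agent.H582AR.Wreath

/-!
# Chebyshev lamps

For every sequence of signs there is a point `z` in `[1, 2]` at which all the polynomials
`T_{4^k} (2 z - 3)` have the prescribed signs and absolute value at least `1/2`.
-/

set_option autoImplicit false

open LaurentPolynomial

namespace Pool.Agent.H582AR

/-- The digits `0` or `2` attached to a sign. -/
noncomputable def dig (b : ℕ → Bool) (k : ℕ) : ℝ := if b k then 0 else 2

theorem dig_nonneg (b : ℕ → Bool) (k : ℕ) : 0 ≤ dig b k := by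
  unfold dig; split_ifs <;> norm_num

theorem dig_le (b : ℕ → Bool) (k : ℕ) : dig b k ≤ 2 := by
  unfold dig; split_ifs <;> norm_num

theorem dig_summable (b : ℕ → Bool) (k : ℕ) :
    Summable (fun j : ℕ => dig b (k + j) * (1 / 4 : ℝ) ^ (j + 1)) := by
  refine Summable.of_nonneg_of_le (fun j => ?_) (fun j => ?_)
    ((summable_geometric_of_lt_one (r := (1 / 4 : ℝ)) (by norm_num) (by norm_num)).mul_left 2)
  · exact mul_nonneg (dig_nonneg b _) (by positivity)
  · have h1 := dig_le b (k + j)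
    have h2 : (1 / 4 : ℝ) ^ (j + 1) ≤ (1 / 4) ^ j := by
      rw [pow_succ]
      have : (0 : ℝ) < (1 / 4) ^ j := by positivity
      linarith
    have h3 := dig_nonneg b (k + j)
    exact mul_le_mul h1 h2 (by positivity) (by norm_num)

/-- The number with base four digits `dig b k, dig b (k + 1), ...`. -/
noncomputable def rr (b : ℕ → Bool) (k : ℕ) : ℝ := ∑' j : ℕ, dig b (k + j) * (1 / 4 : ℝ) ^ (j + 1)

theorem rr_rec (b : ℕ → Bool) (k : ℕ) : 4 * rr b k = dig b k + rr b (k + 1) := by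
  unfold rr
  rw [(dig_summable b k).tsum_eq_zero_add]
  have h : (∑' j : ℕ, dig b (k + (j + 1)) * (1 / 4 : ℝ) ^ (j + 1 + 1)) =
      (1 / 4) * ∑' j : ℕ, dig b (k + 1 + j) * (1 / 4 : ℝ) ^ (j + 1) := by
    rw [← tsum_mul_left]
    apply tsum_congr
    intro j
    have e : k + (j + 1) = k + 1 + j := by ring
    rw [e, pow_succ (1 / 4 : ℝ) (j + 1)]
    ring
  rw [h]
  simp only [add_zero, zero_add, pow_one]
  ring

theorem rr_nonneg (b : ℕ → Bool) (k : ℕ) : 0 ≤ rr b k :=
  tsum_nonneg (fun _ => mul_nonneg (dig_nonneg b _) (by positivity))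

theorem rr_le (b : ℕ → Bool) (k : ℕ) : rr b k ≤ 2 / 3 := by
  have hs : HasSum (fun j : ℕ => (1 / 2 : ℝ) * (1 / 4 : ℝ) ^ j) (1 / 2 * (1 - 1 / 4)⁻¹) :=
    (hasSum_geometric_of_lt_one (by norm_num) (by norm_num)).mul_left _
  have h1 : rr b k ≤ ∑' j : ℕ, (1 / 2 : ℝ) * (1 / 4 : ℝ) ^ j := by
    unfold rr
    refine (dig_summable b k).tsum_le_tsum (fun j => ?_) hs.summable
    have h2 := dig_le b (k + j)
    have h3 : (0 : ℝ) < (1 / 4) ^ j := by positivity
    rw [pow_succ]
    nlinarith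
  rw [hs.tsum_eq] at h1
  norm_num at h1 ⊢
  linarith

theorem rr_pow (b : ℕ → Bool) (k : ℕ) : ∃ n : ℤ, (4 : ℝ) ^ k * rr b 0 = n + rr b k := by
  induction k with
  | zero => exact ⟨0, by simp⟩
  | succ k ih =>
    obtain ⟨n, hn⟩ := ih
    have h := rr_rec b k
    unfold dig at h
    by_cases hb : b k = true
    · refine ⟨4 * n, ?_⟩
      rw [if_pos hb] at h
      rw [pow_succ]
      push_cast
      linarith
    · refine ⟨4 * n + 2, ?_⟩
      rw [if_neg hb] at h
      rw [pow_succ]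
      push_cast
      linarith

/-- The angle attached to a sequence of signs. -/
noncomputable def ang (b : ℕ → Bool) : ℝ := 2 * Real.pi * rr b 0

theorem cos_ang (b : ℕ → Bool) (k : ℕ) :
    Real.cos ((4 : ℝ) ^ k * ang b) = Real.cos (2 * Real.pi * rr b k) := by
  obtain ⟨n, hn⟩ := rr_pow b k
  have e : (4 : ℝ) ^ k * ang b = 2 * Real.pi * rr b k + n * (2 * Real.pi) := by
    unfold ang
    calc (4 : ℝ) ^ k * (2 * Real.pi * rr b 0) = 2 * Real.pi * ((4 : ℝ) ^ k * rr b 0) := by ring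
      _ = _ := by rw [hn]; ring
  rw [e, Real.cos_add_int_mul_two_pi]

theorem cos_pos (b : ℕ → Bool) (k : ℕ) (hb : b k = true) :
    1 / 2 ≤ Real.cos ((4 : ℝ) ^ k * ang b) := by
  rw [cos_ang]
  have h := rr_rec b k
  unfold dig at h
  rw [if_pos hb] at h
  have h1 := rr_nonneg b k
  have h2 := rr_le b (k + 1)
  have hpi := Real.pi_pos
  rw [← Real.cos_pi_div_three]
  apply Real.cos_le_cos_of_nonneg_of_le_pi
  · positivity
  · linarith
  · have : rr b k ≤ 1 / 6 := by linarith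
    nlinarith

theorem cos_neg' (b : ℕ → Bool) (k : ℕ) (hb : b k = false) :
    Real.cos ((4 : ℝ) ^ k * ang b) ≤ -(1 / 2) := by
  rw [cos_ang]
  have h := rr_rec b k
  unfold dig at h
  rw [if_neg (by simp [hb])] at h
  have h1 := rr_nonneg b (k + 1)
  have h2 := rr_le b (k + 1)
  have hpi := Real.pi_pos
  have e : Real.cos (2 * Real.pi * rr b k) = -Real.cos (2 * Real.pi * rr b k - Real.pi) := by
    rw [Real.cos_sub_pi]; ring
  rw [e]
  have h3 : 1 / 2 ≤ Real.cos (2 * Real.pi * rr b k - Real.pi) := by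
    rw [← Real.cos_pi_div_three]
    apply Real.cos_le_cos_of_nonneg_of_le_pi
    · have : 1 / 2 ≤ rr b k := by linarith
      nlinarith
    · linarith
    · have : rr b k ≤ 2 / 3 := by linarith
      nlinarith
  linarith

/-! ### The lamps -/

/-- The time scale attached to a level. -/
def mm (k : ℕ) : ℕ := (k + 2) ^ 2

/-- The size attached to a level. -/
def MM : ℕ → ℕ
  | 0 => 1
  | (k + 1) => 2 * 8 ^ mm (k + 1) * MM k

theorem MM_pos (k : ℕ) : 0 < MM k := by
  induction k with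
  | zero => exact Nat.one_pos
  | succ k ih => rw [MM]; positivity

theorem MM_lt (k : ℕ) : MM k < MM (k + 1) := by
  rw [MM]
  have h1 := MM_pos k
  have h2 : 1 ≤ 8 ^ mm (k + 1) := Nat.one_le_pow _ _ (by norm_num)
  nlinarith

theorem MM_strictMono : StrictMono MM := strictMono_nat_of_lt_succ MM_lt

/-- The lamp polynomial of level `k`. -/
noncomputable def hp (k : ℕ) : Polynomial ℤ :=
  Polynomial.C (MM k : ℤ) * (Polynomial.Chebyshev.T ℤ (4 ^ k)).comp (2 * Polynomial.X - 3)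

/-- The lamps changed by the element of level `k`. -/
noncomputable def GF (k : ℕ) : LaurentPolynomial ℤ :=
  if k = 0 then 0 else if k = 1 then 1 else Polynomial.toLaurent (hp k)

/-- The element of level `k`. -/
noncomputable def gg (k : ℕ) : W := ⟨GF k, if k = 0 then 1 else 0⟩

theorem gg_zero : gg 0 = W.t := by
  simp [gg, GF, W.t]

theorem gg_one : gg 1 = W.a := by
  simp [gg, GF, W.a]

/-- Evaluation of a Laurent polynomial at a positive real number. -/
noncomputable def ev (z : ℝ) (hz : z ≠ 0) : LaurentPolynomial ℤ →+* ℝ :=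
  LaurentPolynomial.eval₂ (Int.castRingHom ℝ) (Units.mk0 z hz)

theorem ev_T (z : ℝ) (hz : z ≠ 0) (n : ℤ) : ev z hz (T n) = z ^ n := by
  rw [ev, LaurentPolynomial.eval₂_T]
  simp

theorem ev_hp (z : ℝ) (hz : z ≠ 0) (θ : ℝ) (hθ : 2 * z - 3 = Real.cos θ) (k : ℕ) :
    ev z hz (Polynomial.toLaurent (hp k)) = MM k * Real.cos ((4 : ℝ) ^ k * θ) := by
  rw [ev, LaurentPolynomial.eval₂_toLaurent]
  simp only [Units.val_mk0, hp]
  rw [Polynomial.eval₂_mul, Polynomial.eval₂_C, Polynomial.eval₂_comp]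
  have e1 : Polynomial.eval₂ (Int.castRingHom ℝ) z (2 * Polynomial.X - 3) = Real.cos θ := by
    rw [← hθ, Polynomial.eval₂_sub, Polynomial.eval₂_mul, Polynomial.eval₂_X]
    simp
  rw [e1]
  have e2 : Polynomial.eval₂ (Int.castRingHom ℝ) (Real.cos θ) (Polynomial.Chebyshev.T ℤ (4 ^ k)) =
      Real.cos ((4 : ℝ) ^ k * θ) := by
    rw [Polynomial.eval₂_eq_eval_map, Polynomial.Chebyshev.map_T,
      Polynomial.Chebyshev.T_real_cos]
    push_cast
    rfl
  rw [e2]
  simp

/-- The point attached to a sequence of signs. -/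
noncomputable def pt (b : ℕ → Bool) : ℝ := (3 + Real.cos (ang b)) / 2

theorem pt_ge (b : ℕ → Bool) : 1 ≤ pt b := by
  have := Real.neg_one_le_cos (ang b)
  unfold pt; linarith

theorem pt_le (b : ℕ → Bool) : pt b ≤ 2 := by
  have := Real.cos_le_one (ang b)
  unfold pt; linarith

theorem pt_ne (b : ℕ → Bool) : pt b ≠ 0 := by
  have := pt_ge b
  linarith

theorem pt_eq (b : ℕ → Bool) : 2 * pt b - 3 = Real.cos (ang b) := by
  unfold pt; ring

theorem abs_ev_GF_le (b : ℕ → Bool) (k : ℕ) : |ev (pt b) (pt_ne b) (GF k)| ≤ MM k := by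
  have hpos : (1 : ℝ) ≤ MM k := by exact_mod_cast MM_pos k
  unfold GF
  split_ifs with h0 h1
  · rw [map_zero, abs_zero]; linarith
  · rw [map_one, abs_one]; exact hpos
  · rw [ev_hp (pt b) (pt_ne b) (ang b) (pt_eq b), abs_mul, Nat.abs_cast]
    have := Real.abs_cos_le_one ((4 : ℝ) ^ k * ang b)
    nlinarith

theorem ev_GF_pos (b : ℕ → Bool) (k : ℕ) (hk : 2 ≤ k) (hb : b k = true) :
    (MM k : ℝ) / 2 ≤ ev (pt b) (pt_ne b) (GF k) := by
  have hpos : (1 : ℝ) ≤ MM k := by exact_mod_cast MM_pos k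
  unfold GF
  rw [if_neg (by omega), if_neg (by omega), ev_hp (pt b) (pt_ne b) (ang b) (pt_eq b)]
  have := cos_pos b k hb
  nlinarith

theorem ev_GF_neg (b : ℕ → Bool) (k : ℕ) (hk : 2 ≤ k) (hb : b k = false) :
    ev (pt b) (pt_ne b) (GF k) ≤ -((MM k : ℝ) / 2) := by
  have hpos : (1 : ℝ) ≤ MM k := by exact_mod_cast MM_pos k
  unfold GF
  rw [if_neg (by omega), if_neg (by omega), ev_hp (pt b) (pt_ne b) (ang b) (pt_eq b)]
  have := cos_neg' b k hb
  nlinarith

/-! ### The semigroup -/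

/-- The semigroup of elements whose lamp polynomial is positive at `z`. -/
def Pz (z : ℝ) (hz : z ≠ 0) (hz0 : 0 < z) : Subsemigroup W where
  carrier := {g | 0 < ev z hz g.F}
  mul_mem' := by
    intro g h hg hh
    simp only [Set.mem_ofPred_eq] at hg hh ⊢
    rw [W.mul_F, map_add, map_mul, ev_T]
    have : 0 < z ^ g.s := zpow_pos hz0 _
    positivity

theorem one_notMem_Pz (z : ℝ) (hz : z ≠ 0) (hz0 : 0 < z) : (1 : W) ∉ Pz z hz hz0 := by
  intro h
  have h' : 0 < ev z hz (1 : W).F := h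
  rw [W.one_F, map_zero] at h'
  exact lt_irrefl _ h'

end Pool.Agent.H582AR
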