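import Mathlib

/-!
# Product measures and heavy tails

Generic lemmas about independent sequences (taken over from the file
`Results/MP_aa6ebe_pr/LocallyVirtuallyAbelian.lean` of the starting files).
-/

set_option autoImplicit false

open MeasureTheory Filter Topology

namespace Pool.Agent.H582AR.Gen

section TailPMF

variable (W : ℕ → ℝ) (h0 : W 0 = 1) (hanti : Antitone W) (hlim : Tendsto W atTop (𝓝 0))

include h0 hanti hlim in
lemma hasSum_tail : HasSum (fun k => ENNReal.ofReal (W k - W (k + 1))) 1 := by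
  have hn : ∀ k, 0 ≤ W k - W (k + 1) := fun k => sub_nonneg.2 (hanti (Nat.le_succ k))
  have hs : HasSum (fun k => W k - W (k + 1)) 1 := by
    rw [hasSum_iff_tendsto_nat_of_nonneg hn]
    have : (fun n => ∑ i ∈ Finset.range n, (W i - W (i + 1))) = fun n => W 0 - W n := by
      funext n; rw [Finset.sum_range_sub']
    rw [this, h0]
    simpa using hlim.const_sub 1
  have h := ENNReal.ofReal_tsum_of_nonneg hn hs.summable
  rw [hs.tsum_eq, ENNReal.ofReal_one] at h
  rw [h]
  exact ENNReal.summable.hasSum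

/-- the law on `ℕ` with tails `P(k ≥ m) = W m` -/
noncomputable def tailPMF : PMF ℕ := ⟨fun k => ENNReal.ofReal (W k - W (k + 1)),
  hasSum_tail W h0 hanti hlim⟩

lemma tailPMF_apply (k : ℕ) :
    tailPMF W h0 hanti hlim k = ENNReal.ofReal (W k - W (k + 1)) := rfl

lemma tailPMF_lt (m : ℕ) :
    (tailPMF W h0 hanti hlim).toMeasure {k | k < m} = ENNReal.ofReal (1 - W m) := by
  have : {k : ℕ | k < m} = ↑(Finset.range m) := by ext; simp
  rw [this, PMF.toMeasure_apply_finset]
  simp_rw [tailPMF_apply]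
  rw [← ENNReal.ofReal_sum_of_nonneg, Finset.sum_range_sub', h0]
  intro i _
  exact sub_nonneg.2 (hanti (Nat.le_succ i))

lemma tailPMF_ge (m : ℕ) :
    (tailPMF W h0 hanti hlim).toMeasure {k | m ≤ k} = ENNReal.ofReal (W m) := by
  have : {k : ℕ | m ≤ k} = {k | k < m}ᶜ := by ext; simp
  have hW1 : W m ≤ 1 := h0 ▸ hanti (Nat.zero_le m)
  rw [this, prob_compl_eq_one_sub MeasurableSet.of_discrete, tailPMF_lt,
    ← ENNReal.ofReal_one, ← ENNReal.ofReal_sub _ (by linarith)]
  congr 1; ring

end TailPMF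

section Prob

variable {G : Type} [MeasurableSpace G] [DiscreteMeasurableSpace G]
variable (ρ : Measure G) [IsProbabilityMeasure ρ]

/-- probability of a cylinder -/
lemma cyl (N : ℕ) (A : ℕ → Set G) :
    Measure.infinitePi (fun _ : ℕ => ρ) {ω : ℕ → G | ∀ l < N, ω l ∈ A l}
      = ∏ l ∈ Finset.range N, ρ (A l) := by
  have h : {ω : ℕ → G | ∀ l < N, ω l ∈ A l} = Set.pi (↑(Finset.range N)) A := by
    ext ω; simp [Set.mem_pi]
  rw [h, Measure.infinitePi_pi]
  intro i _
  exact MeasurableSet.of_discrete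

lemma first_hit (H B : Set G) :
    Measure.infinitePi (fun _ : ℕ => ρ) {ω : ℕ → G | ∃ j, (∀ l < j, ω l ∈ H) ∧ ω j ∈ B}
      ≤ ρ B * (1 - ρ H)⁻¹ := by
  have h : {ω : ℕ → G | ∃ j, (∀ l < j, ω l ∈ H) ∧ ω j ∈ B}
      = ⋃ j, {ω : ℕ → G | ∀ l < j + 1, ω l ∈ (fun l => if l = j then B else H) l} := by
    ext ω
    simp only [Set.mem_ofPred_eq, Set.mem_iUnion]
    constructor
    · rintro ⟨j, h1, h2⟩
      refine ⟨j, fun l hl => ?_⟩
      by_cases hlj : l = j
      · subst hlj; simpa using h2
      · simp only [hlj, if_false]; exact h1 l (by omega)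
    · rintro ⟨j, h1⟩
      refine ⟨j, fun l hl => ?_, ?_⟩
      · have := h1 l (by omega)
        simpa [show l ≠ j by omega] using this
      · have := h1 j (by omega)
        simpa using this
  rw [h]
  refine (measure_iUnion_le _).trans ?_
  have h2 : ∀ j, Measure.infinitePi (fun _ : ℕ => ρ)
      {ω : ℕ → G | ∀ l < j + 1, ω l ∈ (fun l => if l = j then B else H) l} = ρ H ^ j * ρ B := by
    intro j
    rw [cyl, Finset.prod_range_succ]
    congr 1
    · rw [Finset.prod_congr rfl (g := fun _ => ρ H)]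
      · simp
      · intro x hx
        have : x ≠ j := by have := Finset.mem_range.1 hx; omega
        simp [this]
    · simp
  simp_rw [h2]
  rw [ENNReal.tsum_mul_right, ENNReal.tsum_geometric, mul_comm]

lemma two_hits (H B : Set G) :
    Measure.infinitePi (fun _ : ℕ => ρ) {ω : ℕ → G | ∃ j m, (∀ l < j, ω l ∈ H) ∧ ω j ∈ B ∧
        (∀ l < m, ω (j + 1 + l) ∈ H) ∧ ω (j + 1 + m) ∈ B}
      ≤ (ρ B * (1 - ρ H)⁻¹) ^ 2 := by
  have h : {ω : ℕ → G | ∃ j m, (∀ l < j, ω l ∈ H) ∧ ω j ∈ B ∧
        (∀ l < m, ω (j + 1 + l) ∈ H) ∧ ω (j + 1 + m) ∈ B}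
      = ⋃ j, ⋃ m, {ω : ℕ → G | ∀ l < j + 1 + m + 1,
          ω l ∈ (fun l => if l = j ∨ l = j + 1 + m then B else H) l} := by
    ext ω
    simp only [Set.mem_ofPred_eq, Set.mem_iUnion]
    constructor
    · rintro ⟨j, m, h1, h2, h3, h4⟩
      refine ⟨j, m, fun l hl => ?_⟩
      by_cases hlj : l = j
      · subst hlj; simpa using h2
      · by_cases hlm : l = j + 1 + m
        · subst hlm; simpa using h4
        · simp only [hlj, hlm, or_self, if_false]
          by_cases hl2 : l < j
          · exact h1 l hl2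
          · have := h3 (l - (j + 1)) (by omega)
            rwa [show j + 1 + (l - (j + 1)) = l by omega] at this
    · rintro ⟨j, m, h1⟩
      refine ⟨j, m, fun l hl => ?_, ?_, fun l hl => ?_, ?_⟩
      · have := h1 l (by omega)
        simpa [show l ≠ j by omega, show l ≠ j + 1 + m by omega] using this
      · have := h1 j (by omega)
        simpa using this
      · have := h1 (j + 1 + l) (by omega)
        simpa [show j + 1 + l ≠ j by omega, show l ≠ m by omega] using this
      · have := h1 (j + 1 + m) (by omega)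
        simpa using this
  rw [h]
  have h2 : ∀ j m, Measure.infinitePi (fun _ : ℕ => ρ)
      {ω : ℕ → G | ∀ l < j + 1 + m + 1,
          ω l ∈ (fun l => if l = j ∨ l = j + 1 + m then B else H) l}
        = ρ H ^ j * (ρ H ^ m * (ρ B * ρ B)) := by
    intro j m
    rw [cyl, Finset.prod_range_succ, Finset.prod_range_add, Finset.prod_range_succ]
    have e1 : ∏ x ∈ Finset.range j, ρ (if x = j ∨ x = j + 1 + m then B else H) = ρ H ^ j := by
      rw [Finset.prod_congr rfl (g := fun _ => ρ H)]
      · simp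
      · intro x hx
        have hx' := Finset.mem_range.1 hx
        simp [show x ≠ j by omega, show x ≠ j + 1 + m by omega]
    have e2 : ∏ x ∈ Finset.range m, ρ (if j + 1 + x = j ∨ j + 1 + x = j + 1 + m then B else H)
        = ρ H ^ m := by
      rw [Finset.prod_congr rfl (g := fun _ => ρ H)]
      · simp
      · intro x hx
        have hx' := Finset.mem_range.1 hx
        simp [show j + 1 + x ≠ j by omega, show x ≠ m by omega]
    simp only [e1, e2]
    simp only [true_or, or_true, if_true]
    ring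
  refine (measure_iUnion_le _).trans ?_
  calc ∑' j, Measure.infinitePi (fun _ : ℕ => ρ) (⋃ m, {ω : ℕ → G | ∀ l < j + 1 + m + 1,
          ω l ∈ (fun l => if l = j ∨ l = j + 1 + m then B else H) l})
      ≤ ∑' j, ∑' m, Measure.infinitePi (fun _ : ℕ => ρ) {ω : ℕ → G | ∀ l < j + 1 + m + 1,
          ω l ∈ (fun l => if l = j ∨ l = j + 1 + m then B else H) l} :=
        ENNReal.tsum_le_tsum fun j => measure_iUnion_le _
    _ = ∑' j, ∑' m, ρ H ^ j * (ρ H ^ m * (ρ B * ρ B)) := by simp_rw [h2]
    _ = (ρ B * (1 - ρ H)⁻¹) ^ 2 := by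
        simp_rw [ENNReal.tsum_mul_left, ENNReal.tsum_mul_right, ENNReal.tsum_geometric]
        ring

lemma never (H : Set G) (hH : ρ H < 1) (n : ℕ) :
    Measure.infinitePi (fun _ : ℕ => ρ) {ω : ℕ → G | ∀ l, n ≤ l → ω l ∈ H} = 0 := by
  have h : ∀ N : ℕ, Measure.infinitePi (fun _ : ℕ => ρ) {ω : ℕ → G | ∀ l, n ≤ l → ω l ∈ H}
      ≤ ρ H ^ N := by
    intro N
    calc Measure.infinitePi (fun _ : ℕ => ρ) {ω : ℕ → G | ∀ l, n ≤ l → ω l ∈ H}
        ≤ Measure.infinitePi (fun _ : ℕ => ρ) {ω : ℕ → G | ∀ l < n + N,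
            ω l ∈ (fun l => if l < n then Set.univ else H) l} := by
          apply measure_mono
          intro ω hω l hl
          by_cases hln : l < n
          · simp [hln]
          · simp only [hln, if_false]; exact hω l (by omega)
      _ = ρ H ^ N := by
          rw [cyl, Finset.prod_range_add]
          have e1 : ∏ x ∈ Finset.range n, ρ (if x < n then Set.univ else H) = 1 := by
            apply Finset.prod_eq_one
            intro x hx
            have hx' := Finset.mem_range.1 hx
            simp [hx']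
          have e2 : ∏ x ∈ Finset.range N, ρ (if n + x < n then Set.univ else H) = ρ H ^ N := by
            rw [Finset.prod_congr rfl (g := fun _ => ρ H)]
            · simp
            · intro x _
              simp
          rw [e1, e2, one_mul]
  have hlim : Tendsto (fun N : ℕ => ρ H ^ N) atTop (𝓝 0) :=
    ENNReal.tendsto_pow_atTop_nhds_zero_of_lt_one hH
  exact nonpos_iff_eq_zero.1 (ge_of_tendsto' hlim h)

end Prob

/-- polynomially decaying tails -/
noncomputable def W2 (k : ℕ) : ℝ := 1 / ((k : ℝ) + 1)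

lemma W2_pos (k : ℕ) : 0 < W2 k := by unfold W2; positivity

lemma W2_zero : W2 0 = 1 := by simp [W2]

lemma W2_strict (k : ℕ) : W2 (k + 1) < W2 k := by
  unfold W2
  apply one_div_lt_one_div_of_lt
  · positivity
  · push_cast; linarith

lemma W2_anti : Antitone W2 := antitone_nat_of_succ_le fun k => (W2_strict k).le

lemma W2_lim : Tendsto W2 atTop (𝓝 0) := by
  unfold W2
  have h1 : Tendsto (fun k : ℕ => ((k : ℝ) + 1)) atTop atTop :=
    tendsto_atTop_add_const_right _ _ tendsto_natCast_atTop_atTop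
  simp only [one_div]
  exact tendsto_inv_atTop_zero.comp h1

lemma W2_ratio (k : ℕ) : (W2 k - W2 (k + 1)) / W2 k = 1 / (k + 2) := by
  unfold W2
  push_cast
  have h1 : (k : ℝ) + 1 ≠ 0 := by positivity
  have h2 : (k : ℝ) + 1 + 1 ≠ 0 := by positivity
  have h3 : (k : ℝ) + 2 ≠ 0 := by positivity
  field_simp
  ring

end Pool.Agent.H582AR.Gen
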