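import Pool.Agent.H582AR.Walk

/-!
# The heavy-tailed law and the almost sure statement
-/

set_option autoImplicit false

open MeasureTheory Filter Topology LaurentPolynomial

namespace Pool.Agent.H582AR

open Gen

open Classical in
/-- the two elements of level `i` -/
noncomputable def F (i : ℕ) : Finset W := {gg i, (gg i)⁻¹}

lemma mem_F (i : ℕ) (g : W) : g ∈ F i ↔ g = gg i ∨ g = (gg i)⁻¹ := by
  simp [F]

lemma F_nonempty (i : ℕ) : (F i).Nonempty := ⟨gg i, by simp [mem_F]⟩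

lemma inv_mem_F (i : ℕ) (g : W) : g⁻¹ ∈ F i ↔ g ∈ F i := by
  rw [mem_F, mem_F]
  constructor
  · rintro (h | h)
    · right; rw [← h, inv_inv]
    · left; exact inv_injective h
  · rintro (h | h)
    · right; rw [h]
    · left; rw [h, inv_inv]

lemma F_sub_L (i : ℕ) : ∀ g ∈ F i, g ∈ L i := by
  intro g hg
  rw [mem_F] at hg
  exact hg

/-- the law of the steps -/
noncomputable def nu : PMF W :=
  (tailPMF W2 W2_zero W2_anti W2_lim).bind fun i => PMF.uniformOfFinset (F i) (F_nonempty i)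

lemma nu_symm (g : W) : nu g⁻¹ = nu g := by
  unfold nu
  rw [PMF.bind_apply, PMF.bind_apply]
  apply tsum_congr
  intro i
  congr 1
  rw [PMF.uniformOfFinset_apply, PMF.uniformOfFinset_apply]
  by_cases h : g ∈ F i
  · rw [if_pos h, if_pos ((inv_mem_F i g).2 h)]
  · rw [if_neg h, if_neg fun hh => h ((inv_mem_F i g).1 hh)]

lemma nu_support : nu.support = ⋃ i, (F i : Set W) := by
  unfold nu
  rw [PMF.support_bind]
  have : (tailPMF W2 W2_zero W2_anti W2_lim).support = Set.univ := by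
    ext k
    rw [PMF.mem_support_iff, tailPMF_apply]
    simp only [Set.mem_univ, iff_true]
    exact (ENNReal.ofReal_pos.2 (sub_pos.2 (W2_strict k))).ne'
  rw [this]
  simp

lemma nu_closure : Subgroup.closure nu.support = ⊤ := by
  rw [nu_support]
  set C := Subgroup.closure (⋃ i, (F i : Set W))
  have hg : ∀ i, gg i ∈ C := fun i =>
    Subgroup.subset_closure (Set.mem_iUnion.2 ⟨i, by simp [mem_F]⟩)
  apply closure_ta C
  · rw [← gg_zero]; exact hg 0
  · rw [← gg_one]; exact hg 1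

section
variable [MeasurableSpace W] [DiscreteMeasurableSpace W]

lemma unif_of_subset (i : ℕ) (A : Set W) (h : ∀ g ∈ F i, g ∈ A) :
    (PMF.uniformOfFinset (F i) (F_nonempty i)).toMeasure A = 1 := by
  rw [PMF.toMeasure_apply_eq_one_iff _ MeasurableSet.of_discrete]
  intro g hg
  rw [PMF.support_uniformOfFinset] at hg
  exact h g hg

lemma unif_of_disj (i : ℕ) (A : Set W) (h : ∀ g ∈ F i, g ∉ A) :
    (PMF.uniformOfFinset (F i) (F_nonempty i)).toMeasure A = 0 := by
  rw [PMF.toMeasure_apply_eq_zero_iff _ MeasurableSet.of_discrete]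
  rw [Set.disjoint_left]
  intro g hg
  rw [PMF.support_uniformOfFinset] at hg
  exact h g hg

lemma nu_H (d : ℕ) : nu.toMeasure (H d : Set W) = ENNReal.ofReal (1 - W2 d) := by
  unfold nu
  rw [PMF.toMeasure_bind_apply _ _ _ MeasurableSet.of_discrete,
    ← tailPMF_lt W2 W2_zero W2_anti W2_lim d, PMF.toMeasure_apply _ MeasurableSet.of_discrete]
  apply tsum_congr
  intro i
  by_cases h : i < d
  · rw [unif_of_subset i _ fun g hg => L_sub_H i d h g (F_sub_L i g hg), mul_one,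
      Set.indicator_of_mem (show i ∈ {k | k < d} from h)]
  · rw [unif_of_disj i _ fun g hg => L_not_H i d (by omega) g (F_sub_L i g hg), mul_zero,
      Set.indicator_of_notMem (show i ∉ {k | k < d} from h)]

lemma nu_L (d : ℕ) : nu.toMeasure (L d) = ENNReal.ofReal (W2 d - W2 (d + 1)) := by
  unfold nu
  rw [PMF.toMeasure_bind_apply _ _ _ MeasurableSet.of_discrete]
  rw [tsum_eq_single d]
  · rw [unif_of_subset d _ fun g hg => F_sub_L d g hg, mul_one, tailPMF_apply]
  · intro i hi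
    rw [unif_of_disj i _ fun g hg hL => hi (L_disj i d g (F_sub_L i g hg) hL), mul_zero]

lemma nu_T : nu.toMeasure {g | ∃ i, g ∈ L i} = 1 := by
  rw [PMF.toMeasure_apply_eq_one_iff _ MeasurableSet.of_discrete, nu_support]
  intro g hg
  obtain ⟨i, hi⟩ := Set.mem_iUnion.1 hg
  exact ⟨i, F_sub_L i g hi⟩

lemma prob_Bad (i : ℕ) :
    Measure.infinitePi (fun _ : ℕ => nu.toMeasure) (Bad i) ≤
      ENNReal.ofReal ((1 / ((i : ℝ) + 2)) ^ 2) := by
  have hW := W2_pos i
  have hW1 : W2 i ≤ 1 := W2_zero ▸ W2_anti (Nat.zero_le _)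
  have hcompl : 1 - nu.toMeasure (H i : Set W) = ENNReal.ofReal (W2 i) := by
    rw [nu_H, ← ENNReal.ofReal_one, ← ENNReal.ofReal_sub _ (by linarith)]
    congr 1; ring
  refine (two_hits _ _ _).trans ?_
  rw [hcompl, nu_L, ENNReal.ofReal_pow (by positivity), ← W2_ratio,
    ENNReal.ofReal_div_of_pos hW, ENNReal.div_eq_inv_mul, mul_comm]

lemma late_bound (i : ℕ) : (1 - W2 (i + 1)) ^ mm i ≤ (1 / 2 : ℝ) ^ (i + 2) := by
  have h1 : (1 - W2 (i + 1)) = 1 - 1 / ((i : ℝ) + 2) := by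
    unfold W2; push_cast; ring
  have hx : (0 : ℝ) < (i : ℝ) + 2 := by positivity
  have h2 : 1 - 1 / ((i : ℝ) + 2) ≤ Real.exp (-(1 / ((i : ℝ) + 2))) := by
    have := Real.add_one_le_exp (-(1 / ((i : ℝ) + 2)))
    linarith
  have h0 : 0 ≤ 1 - 1 / ((i : ℝ) + 2) := by
    rw [sub_nonneg, div_le_one hx]; linarith [Nat.cast_nonneg (α := ℝ) i]
  rw [h1]
  have h3 : mm i = (i + 2) * (i + 2) := by unfold mm; ring
  rw [h3, pow_mul]
  apply pow_le_pow_left₀ (pow_nonneg h0 _)
  calc (1 - 1 / ((i : ℝ) + 2)) ^ (i + 2) ≤ Real.exp (-(1 / ((i : ℝ) + 2))) ^ (i + 2) :=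
        pow_le_pow_left₀ h0 h2 _
    _ = Real.exp (-1) := by
        rw [← Real.exp_nat_mul]
        congr 1
        push_cast
        field_simp
    _ ≤ 1 / 2 := by
        rw [Real.exp_neg, one_div]
        apply inv_anti₀ (by norm_num)
        have := Real.add_one_le_exp 1
        linarith

lemma prob_Late (i : ℕ) :
    Measure.infinitePi (fun _ : ℕ => nu.toMeasure) (Late i) ≤
      ENNReal.ofReal ((1 / 2 : ℝ) ^ (i + 2)) := by
  have hW1 : W2 (i + 1) ≤ 1 := W2_zero ▸ W2_anti (Nat.zero_le _)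
  have h : Late i = {ω : ℕ → W | ∀ l < mm i, ω l ∈ (fun _ : ℕ => H (i + 1)) l} := rfl
  rw [h, cyl, Finset.prod_const, Finset.card_range, nu_H, ← ENNReal.ofReal_pow (by linarith)]
  exact ENNReal.ofReal_le_ofReal (late_bound i)

theorem nu_strong : ∀ᵐ ω ∂(Measure.infinitePi (fun _ : ℕ => nu.toMeasure)),
    ∃ n : ℕ, 1 ≤ n ∧ ∃ (z : ℝ) (hz : z ≠ 0) (hz0 : 0 < z), ∀ k, n ≤ k → X ω k ∈ Pz z hz hz0 := by
  have h1 : ∀ᵐ ω ∂(Measure.infinitePi (fun _ : ℕ => nu.toMeasure)), ∀ j, ∃ i, ω j ∈ L i := by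
    rw [ae_all_iff]
    intro j
    have h2 : {ω : ℕ → W | ¬ ∃ i, ω j ∈ L i}
        = (fun ω : ℕ → W => ω j) ⁻¹' {g | ∃ i, g ∈ L i}ᶜ := rfl
    rw [ae_iff, h2, ← Measure.map_apply (measurable_pi_apply j) MeasurableSet.of_discrete,
      Measure.infinitePi_map_eval, prob_compl_eq_one_sub MeasurableSet.of_discrete, nu_T,
      tsub_self]
  have h2 : ∀ᵐ ω ∂(Measure.infinitePi (fun _ : ℕ => nu.toMeasure)),
      ∀ᶠ i in atTop, ω ∉ Bad i := by
    apply ae_eventually_notMem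
    have hs : Summable fun i : ℕ => (1 / ((i : ℝ) + 2)) ^ 2 := by
      have h3 : Summable fun i : ℕ => (1 : ℝ) / ((i : ℝ)) ^ 2 :=
        Real.summable_one_div_nat_pow.2 one_lt_two
      have h4 := (summable_nat_add_iff 2).2 h3
      refine h4.congr fun i => ?_
      push_cast
      rw [div_pow, one_pow]
    refine ne_top_of_le_ne_top ?_ (ENNReal.tsum_le_tsum prob_Bad)
    rw [← ENNReal.ofReal_tsum_of_nonneg (fun i => by positivity) hs]
    exact ENNReal.ofReal_ne_top
  have h4 : ∀ᵐ ω ∂(Measure.infinitePi (fun _ : ℕ => nu.toMeasure)),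
      ∀ᶠ i in atTop, ω ∉ Late i := by
    apply ae_eventually_notMem
    have hs : Summable fun i : ℕ => (1 / 2 : ℝ) ^ (i + 2) :=
      (summable_nat_add_iff 2).2
        (summable_geometric_of_lt_one (r := (1 / 2 : ℝ)) (by norm_num) (by norm_num))
    refine ne_top_of_le_ne_top ?_ (ENNReal.tsum_le_tsum prob_Late)
    rw [← ENNReal.ofReal_tsum_of_nonneg (fun i => by positivity) hs]
    exact ENNReal.ofReal_ne_top
  have h3 : ∀ᵐ ω ∂(Measure.infinitePi (fun _ : ℕ => nu.toMeasure)), ∀ i0, ∃ j, ω j ∉ H i0 := by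
    rw [ae_all_iff]
    intro i0
    rw [ae_iff]
    have hlt : nu.toMeasure (H i0 : Set W) < 1 := by
      rw [nu_H, ENNReal.ofReal_lt_one]
      linarith [W2_pos i0]
    have := never nu.toMeasure _ hlt 0
    convert this using 2
    ext ω
    simp
  filter_upwards [h1, h2, h3, h4] with ω hω1 hω2 hω3 hω4
  obtain ⟨i1, hi1⟩ := eventually_atTop.1 (hω2.and hω4)
  obtain ⟨j, hj⟩ := hω3 (max i1 2)
  refine ⟨j + 1, by omega, nar_det ω hω1 (max i1 2) (j + 1) (le_max_right _ _)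
    (fun i hi => (hi1 i ((le_max_left _ _).trans hi)).1)
    (fun i hi => (hi1 i ((le_max_left _ _).trans hi)).2) ⟨j, Nat.lt_succ_self j, hj⟩⟩

end

end Pool.Agent.H582AR
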