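import Pool.Agent.H582AR.Cheb
import Pool.Agent.H582AR.Gen

/-!
# The walk on the wreath product
-/

set_option autoImplicit false

open MeasureTheory Filter Topology LaurentPolynomial

namespace Pool.Agent.H582AR

open Gen

/-- partial products -/
noncomputable def X (ω : ℕ → W) (k : ℕ) : W := ((List.range k).map ω).prod

lemma X_zero (ω : ℕ → W) : X ω 0 = 1 := rfl

lemma X_succ (ω : ℕ → W) (k : ℕ) : X ω (k + 1) = X ω k * ω k := by
  simp [X, List.range_succ]

/-- the two elements of level `i` -/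
def L (i : ℕ) : Set W := {g | g = gg i ∨ g = (gg i)⁻¹}

/-- the elements of level less than `d` -/
def H (d : ℕ) : Set W := {g | ∃ i < d, g ∈ L i}

lemma gg_F (i : ℕ) : (gg i).F = GF i := rfl

lemma gg_inv_F (i : ℕ) : ((gg i)⁻¹).F = -GF i := by
  rw [W.inv_F]
  by_cases h : i = 0
  · subst h; simp [gg, GF]
  · simp [gg, h, T_zero]

lemma L_F {i : ℕ} {g : W} (h : g ∈ L i) : g.F = GF i ∨ g.F = -GF i := by
  rcases h with h | h
  · left; rw [h]; rfl
  · right; rw [h]; exact gg_inv_F i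

lemma L_s {i : ℕ} {g : W} (h : g ∈ L i) : |g.s| ≤ 1 := by
  rcases h with h | h
  · rw [h]
    unfold gg
    simp only
    split_ifs <;> simp
  · rw [h, W.inv_s, abs_neg]
    unfold gg
    simp only
    split_ifs <;> simp

lemma abs_ev_L {b : ℕ → Bool} {i : ℕ} {g : W} (h : g ∈ L i) :
    |ev (pt b) (pt_ne b) g.F| ≤ MM i := by
  rcases L_F h with h | h
  · rw [h]; exact abs_ev_GF_le b i
  · rw [h, map_neg, abs_neg]; exact abs_ev_GF_le b i

/-- a quantity separating the levels -/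
noncomputable def sz (k : ℕ) : ℝ := if k = 0 then 0 else if k = 1 then 1 else MM k

lemma sz_inj {i j : ℕ} (h : sz i = sz j) : i = j := by
  have hM : ∀ k, 2 ≤ k → (1 : ℝ) < MM k := by
    intro k hk
    have h1 : MM 0 < MM k := MM_strictMono (by omega)
    have h2 : MM 0 = 1 := rfl
    rw [h2] at h1
    exact_mod_cast h1
  unfold sz at h
  split_ifs at h with h1 h2 h3 h4 h5 h6 h7 h8
  · omega
  · norm_num at h
  · have := hM j (by omega); linarith
  · norm_num at h
  · omega
  · have := hM j (by omega); linarith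
  · have := hM i (by omega); linarith
  · have := hM i (by omega); linarith
  · exact MM_strictMono.injective (by exact_mod_cast h)

lemma ev_two (k : ℕ) : ev 2 two_ne_zero (GF k) = sz k := by
  unfold GF sz
  split_ifs with h0 h1
  · rw [map_zero]
  · rw [map_one]
  · rw [ev_hp 2 two_ne_zero 0 (by rw [Real.cos_zero]; norm_num), mul_zero, Real.cos_zero, mul_one]

lemma sz_nonneg (k : ℕ) : 0 ≤ sz k := by
  unfold sz
  split_ifs
  · exact le_rfl
  · norm_num
  · positivity

lemma L_sz {i : ℕ} {g : W} (h : g ∈ L i) : |ev 2 two_ne_zero g.F| = sz i := by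
  rcases L_F h with h | h
  · rw [h, ev_two, abs_of_nonneg (sz_nonneg i)]
  · rw [h, map_neg, abs_neg, ev_two, abs_of_nonneg (sz_nonneg i)]

lemma L_disj (i j : ℕ) (g : W) (h1 : g ∈ L i) (h2 : g ∈ L j) : i = j := by
  apply sz_inj
  rw [← L_sz h1, L_sz h2]

lemma L_sub_H (i d : ℕ) (h : i < d) : ∀ g ∈ L i, g ∈ H d := fun _ hg => ⟨i, h, hg⟩

lemma L_not_H (i d : ℕ) (h : d ≤ i) : ∀ g ∈ L i, g ∉ H d := by
  rintro g hg ⟨j, hj, hgj⟩
  have := L_disj i j g hg hgj
  omega

lemma H_mono {d e : ℕ} (h : d ≤ e) {g : W} (hg : g ∈ H d) : g ∈ H e := by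
  obtain ⟨i, hi, hg⟩ := hg
  exact ⟨i, by omega, hg⟩

/-- level `i` is used at least twice before any higher level is used -/
def Bad (i : ℕ) : Set (ℕ → W) := {ω | ∃ j m, (∀ l < j, ω l ∈ H i) ∧ ω j ∈ L i ∧
        (∀ l < m, ω (j + 1 + l) ∈ H i) ∧ ω (j + 1 + m) ∈ L i}

/-- levels above `i` are not used up to time `mm i` -/
def Late (i : ℕ) : Set (ℕ → W) := {ω | ∀ l < mm i, ω l ∈ H (i + 1)}

lemma exists_level (ω : ℕ → W) (hT : ∀ j, ∃ i, ω j ∈ L i) (k : ℕ) :
    ∃ d, ∀ j < k, ω j ∈ H (d + 1) := by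
  induction k with
  | zero => exact ⟨0, fun j hj => by omega⟩
  | succ k ih =>
    obtain ⟨d, hd⟩ := ih
    obtain ⟨e, he⟩ := hT k
    refine ⟨max d e, fun j hj => ?_⟩
    rcases Nat.lt_succ_iff_lt_or_eq.1 hj with h | h
    · exact H_mono (by omega) (hd j h)
    · subst h; exact L_sub_H e _ (by omega) _ he

lemma level_eq (ω : ℕ → W) (hT : ∀ j, ∃ i, ω j ∈ L i) (i j : ℕ) (h1 : ω j ∉ H i)
    (h2 : ω j ∈ H (i + 1)) : ω j ∈ L i := by
  obtain ⟨i', hi'⟩ := hT j
  have h3 : i ≤ i' := by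
    by_contra hlt
    exact h1 (L_sub_H i' i (by omega) _ hi')
  have h4 : i' ≤ i := by
    by_contra hlt
    exact L_not_H i' (i + 1) (by omega) _ hi' h2
  rwa [le_antisymm h3 h4]

lemma X_s_le (ω : ℕ → W) (hT : ∀ j, ∃ i, ω j ∈ L i) (k : ℕ) : |(X ω k).s| ≤ k := by
  induction k with
  | zero => rw [X_zero]; simp
  | succ k ih =>
    obtain ⟨i, hi⟩ := hT k
    rw [X_succ, W.mul_s]
    have h1 := L_s hi
    have h2 := abs_add_le (X ω k).s (ω k).s
    push_cast
    linarith

lemma ev_X (z : ℝ) (hz : z ≠ 0) (ω : ℕ → W) (k : ℕ) :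
    ev z hz (X ω k).F = ∑ l ∈ Finset.range k, z ^ (X ω l).s * ev z hz (ω l).F := by
  induction k with
  | zero => rw [X_zero]; simp
  | succ k ih =>
    rw [X_succ, W.mul_F, map_add, map_mul, ev_T, ih, Finset.sum_range_succ]

lemma zpow_bounds {z : ℝ} (h1 : 1 ≤ z) (h2 : z ≤ 2) {s : ℤ} {k : ℕ} (hs : |s| ≤ k) :
    (1 / 2 : ℝ) ^ k ≤ z ^ s ∧ z ^ s ≤ 2 ^ k := by
  have hz0 : (0 : ℝ) < z := by linarith
  have h3 := abs_le.1 hs
  have hk : z ^ (k : ℤ) ≤ 2 ^ k := by
    rw [zpow_natCast]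
    exact pow_le_pow_left₀ hz0.le h2 k
  constructor
  · have h4 : z ^ (-(k : ℤ)) ≤ z ^ s := zpow_le_zpow_right₀ h1 h3.1
    refine le_trans ?_ h4
    rw [zpow_neg, one_div, inv_pow]
    exact inv_anti₀ (by positivity) hk
  · exact (zpow_le_zpow_right₀ h1 h3.2).trans hk

/-- The deterministic part: the walk stays in a proper semigroup. -/
lemma nar_det (ω : ℕ → W) (hT : ∀ j, ∃ i, ω j ∈ L i) (i0 n : ℕ) (hi0 : 2 ≤ i0)
    (hbad : ∀ i, i0 ≤ i → ω ∉ Bad i) (hlate : ∀ i, i0 ≤ i → ω ∉ Late i)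
    (hn : ∃ j < n, ω j ∉ H i0) :
    ∃ (z : ℝ) (hz : z ≠ 0) (hz0 : 0 < z), ∀ k, n ≤ k → X ω k ∈ Pz z hz hz0 := by
  classical
  let b : ℕ → Bool := fun i => if h : ∃ j, ω j ∉ H i then decide (ω (Nat.find h) = gg i) else true
  have hzpos : 0 < pt b := by have := pt_ge b; linarith
  refine ⟨pt b, pt_ne b, hzpos, ?_⟩
  intro k hk
  obtain ⟨j0, hj0, hj0H⟩ := hn
  have hex := exists_level ω hT k
  set i := Nat.find hex with hi
  have hi1 : ∀ j < k, ω j ∈ H (i + 1) := Nat.find_spec hex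
  have hii0 : i0 ≤ i := by
    by_contra hlt
    exact hj0H (H_mono (by omega) (hi1 j0 (by omega)))
  have hex3 : ∃ j < k, ω j ∉ H i := by
    have := Nat.find_min hex (m := i - 1) (by omega)
    push Not at this
    obtain ⟨j, hj, hjH⟩ := this
    rw [show i - 1 + 1 = i by omega] at hjH
    exact ⟨j, hj, hjH⟩
  have hex2 : ∃ j, ω j ∉ H i := by
    obtain ⟨j, _, hj⟩ := hex3
    exact ⟨j, hj⟩
  have hbi : b i = decide (ω (Nat.find hex2) = gg i) := dif_pos hex2
  set j := Nat.find hex2 with hj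
  have hjH : ω j ∉ H i := Nat.find_spec hex2
  have hjk : j < k := by
    obtain ⟨j', hj', hj'H⟩ := hex3
    exact lt_of_le_of_lt (Nat.find_min' hex2 hj'H) hj'
  have hjl : ∀ l < j, ω l ∈ H i := fun l hl => by
    by_contra h
    exact Nat.find_min hex2 hl h
  have hjL : ω j ∈ L i := level_eq ω hT i j hjH (hi1 j hjk)
  have hafter : ∀ m, j + 1 + m < k → ω (j + 1 + m) ∈ H i := by
    by_contra hcon
    push Not at hcon
    let m := Nat.find hcon
    have hm : j + 1 + m < k ∧ ω (j + 1 + m) ∉ H i := Nat.find_spec hcon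
    have hml : ∀ l < m, ω (j + 1 + l) ∈ H i := fun l hl => by
      have := Nat.find_min hcon hl
      push Not at this
      exact this (by omega)
    exact hbad i hii0 ⟨j, m, hjl, hjL, hml, level_eq ω hT i _ hm.2 (hi1 _ hm.1)⟩
  have hother : ∀ l < k, l ≠ j → ω l ∈ H i := by
    intro l hl hne
    rcases lt_or_gt_of_ne hne with h | h
    · exact hjl l h
    · have := hafter (l - (j + 1)) (by omega)
      rwa [show j + 1 + (l - (j + 1)) = l by omega] at this
  -- the time bound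
  have hkm : k ≤ mm i := by
    by_contra hlt
    push Not at hlt
    exact hlate i hii0 (fun l hl => hi1 l (by omega))
  -- sizes
  set z := pt b with hzdef
  have hz1 : 1 ≤ z := pt_ge b
  have hz2 : z ≤ 2 := pt_le b
  set e : W → ℝ := fun g => ev z (pt_ne b) g.F with he
  have hsizej : (MM i : ℝ) / 2 ≤ e (ω j) := by
    rcases hjL with h | h
    · have hb : b i = true := by rw [hbi]; exact decide_eq_true h
      simp only [he]
      rw [h, gg_F]
      exact ev_GF_pos b i (by omega) hb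
    · by_cases h' : ω j = gg i
      · have hb : b i = true := by rw [hbi]; exact decide_eq_true h'
        simp only [he]
        rw [h', gg_F]
        exact ev_GF_pos b i (by omega) hb
      · have hb : b i = false := by rw [hbi]; exact decide_eq_false h'
        simp only [he]
        rw [h, gg_inv_F, map_neg]
        have := ev_GF_neg b i (by omega) hb
        linarith
  obtain ⟨p, hp⟩ : ∃ p, i = p + 1 := ⟨i - 1, by omega⟩
  have hMi : (MM i : ℝ) = 2 * 8 ^ mm i * MM p := by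
    rw [hp, MM]; push_cast; ring
  have hMp : (1 : ℝ) ≤ MM p := by exact_mod_cast MM_pos p
  have hsizel : ∀ l < k, l ≠ j → |e (ω l)| ≤ MM p := by
    intro l hl hne
    obtain ⟨i', hi', hL⟩ := hother l hl hne
    refine (abs_ev_L (b := b) hL).trans ?_
    exact_mod_cast MM_strictMono.monotone (show i' ≤ p by omega)
  -- the sum
  have hsum : e (X ω k) = z ^ (X ω j).s * e (ω j) +
      ∑ l ∈ (Finset.range k).erase j, z ^ (X ω l).s * e (ω l) := by
    simp only [he]
    rw [ev_X]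
    exact (Finset.add_sum_erase (Finset.range k)
      (fun l => z ^ (X ω l).s * ev z (pt_ne b) (ω l).F) (Finset.mem_range.2 hjk)).symm
  have hmain : (1 / 2 : ℝ) ^ k * (8 ^ mm i * MM p) ≤ z ^ (X ω j).s * e (ω j) := by
    have h1 : |(X ω j).s| ≤ (k : ℤ) := (X_s_le ω hT j).trans (by exact_mod_cast hjk.le)
    have h2 := (zpow_bounds hz1 hz2 h1).1
    have h3 : (8 : ℝ) ^ mm i * MM p ≤ e (ω j) := by
      rw [hMi] at hsizej
      linarith
    exact mul_le_mul h2 h3 (by positivity) (by positivity)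
  have hrest : |∑ l ∈ (Finset.range k).erase j, z ^ (X ω l).s * e (ω l)| ≤
      k * (2 ^ k * MM p) := by
    refine (Finset.abs_sum_le_sum_abs _ _).trans ?_
    have h1 : ∀ l ∈ (Finset.range k).erase j, |z ^ (X ω l).s * e (ω l)| ≤ 2 ^ k * MM p := by
      intro l hl
      rw [Finset.mem_erase, Finset.mem_range] at hl
      have h2 : |(X ω l).s| ≤ (k : ℤ) := (X_s_le ω hT l).trans (by exact_mod_cast hl.2.le)
      have h3 := (zpow_bounds hz1 hz2 h2).2
      have h4 : 0 < z ^ (X ω l).s := by positivity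
      rw [abs_mul, abs_of_pos h4]
      exact mul_le_mul h3 (hsizel l hl.2 hl.1) (abs_nonneg _) (by positivity)
    refine (Finset.sum_le_sum h1).trans ?_
    rw [Finset.sum_const, nsmul_eq_mul]
    have h5 : (((Finset.range k).erase j).card : ℝ) ≤ k := by
      have := Finset.card_erase_le (s := Finset.range k) (a := j)
      rw [Finset.card_range] at this
      exact_mod_cast this
    exact mul_le_mul_of_nonneg_right h5 (by positivity)
  have hcmp : (k : ℝ) * (2 ^ k * MM p) < (1 / 2 : ℝ) ^ k * (8 ^ mm i * MM p) := by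
    have h1 : (8 : ℝ) ^ k ≤ 8 ^ mm i := pow_le_pow_right₀ (by norm_num) hkm
    have h2 : (k : ℝ) < 2 ^ k := by exact_mod_cast Nat.lt_two_pow_self
    have h3 : (1 / 2 : ℝ) ^ k * 8 ^ k = 2 ^ k * 2 ^ k := by
      rw [← mul_pow, ← mul_pow]; norm_num
    have h4 : (0 : ℝ) < 2 ^ k := by positivity
    calc (k : ℝ) * (2 ^ k * MM p) < 2 ^ k * (2 ^ k * MM p) := by
          apply mul_lt_mul_of_pos_right h2; positivity
      _ = (1 / 2 : ℝ) ^ k * (8 ^ k * MM p) := by rw [← mul_assoc, ← mul_assoc, h3]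
      _ ≤ _ := by
          apply mul_le_mul_of_nonneg_left _ (by positivity)
          exact mul_le_mul_of_nonneg_right h1 (by positivity)
  show 0 < e (X ω k)
  rw [hsum]
  have := (abs_le.1 hrest).1
  linarith

end Pool.Agent.H582AR
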