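import Mathlib

/-!
# The wreath product of two infinite cyclic groups

Elements are pairs of a Laurent polynomial (the lamps) and an integer (the cursor).
-/

set_option autoImplicit false

open LaurentPolynomial

namespace Pool.Agent.H582AR

/-- Elements of the wreath product: lamps `F` and cursor `s`. -/
@[ext] structure W where
  /-- the lamps -/
  F : LaurentPolynomial ℤ
  /-- the cursor -/
  s : ℤ

namespace W

noncomputable instance : Mul W := ⟨fun a b => ⟨a.F + T a.s * b.F, a.s + b.s⟩⟩
noncomputable instance : One W := ⟨⟨0, 0⟩⟩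
noncomputable instance : Inv W := ⟨fun a => ⟨-(T (-a.s) * a.F), -a.s⟩⟩

@[simp] theorem mul_F (a b : W) : (a * b).F = a.F + T a.s * b.F := rfl
@[simp] theorem mul_s (a b : W) : (a * b).s = a.s + b.s := rfl
@[simp] theorem one_F : (1 : W).F = 0 := rfl
@[simp] theorem one_s : (1 : W).s = 0 := rfl
@[simp] theorem inv_F (a : W) : (a⁻¹).F = -(T (-a.s) * a.F) := rfl
@[simp] theorem inv_s (a : W) : (a⁻¹).s = -a.s := rfl

noncomputable instance : Group W where
  mul_assoc a b c := by
    ext1
    · simp only [mul_F, mul_s, T_add]; ring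
    · simp only [mul_s]; ring
  one_mul a := by
    ext1
    · simp [T_zero]
    · simp
  mul_one a := by
    ext1
    · simp
    · simp
  inv_mul_cancel a := by
    ext1
    · simp
    · simp

/-- moving the cursor -/
noncomputable def t : W := ⟨0, 1⟩

/-- changing the lamp at the cursor -/
noncomputable def a : W := ⟨1, 0⟩

theorem mul_t (g : W) : g * t = ⟨g.F, g.s + 1⟩ := by
  ext1 <;> simp [t]

theorem mul_t_inv (g : W) : g * t⁻¹ = ⟨g.F, g.s - 1⟩ := by
  ext1
  · simp [t]
  · simp [t]; ring

theorem mul_a (g : W) : g * a = ⟨g.F + T g.s, g.s⟩ := by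
  ext1 <;> simp [a]

theorem mul_a_inv (g : W) : g * a⁻¹ = ⟨g.F - T g.s, g.s⟩ := by
  ext1
  · simp [a, T_zero]; ring
  · simp [a]

end W

/-! ### Bounded midpoint-convex functions on the integers -/

theorem const_of_convex (m : ℤ → ℝ) (C : ℝ) (hb : ∀ x, |m x| ≤ C)
    (hc : ∀ x, 2 * m x ≤ m (x + 1) + m (x - 1)) : ∀ x y, m x = m y := by
  -- differences are monotone
  have hd : ∀ x, m x - m (x - 1) ≤ m (x + 1) - m x := fun x => by linarith [hc x]
  have hup : ∀ (x : ℤ) (n : ℕ), m (x + 1) - m x ≤ m (x + 1 + n) - m (x + n) := by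
    intro x n
    induction n with
    | zero => simp
    | succ n ih =>
      have h := hd (x + 1 + n)
      have e1 : x + 1 + (n : ℤ) - 1 = x + n := by ring
      rw [e1] at h
      push_cast
      have e2 : x + 1 + ((n : ℤ) + 1) = x + 1 + n + 1 := by ring
      have e3 : x + ((n : ℤ) + 1) = x + 1 + n := by ring
      rw [e2, e3]
      linarith
  have hdown : ∀ (x : ℤ) (n : ℕ), m (x + 1 - n) - m (x - n) ≤ m (x + 1) - m x := by
    intro x n
    induction n with
    | zero => simp
    | succ n ih =>
      have h := hd (x - n)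
      push_cast
      have e2 : x + 1 - ((n : ℤ) + 1) = x - n := by ring
      have e3 : x - ((n : ℤ) + 1) = x - n - 1 := by ring
      have e4 : x - (n : ℤ) + 1 = x + 1 - n := by ring
      rw [e2, e3]
      rw [e4] at h
      linarith
  have hzero : ∀ x, m (x + 1) - m x = 0 := by
    intro x
    by_contra hne
    rcases lt_or_gt_of_ne hne with hlt | hgt
    · -- negative slope: go left
      have h1 : ∀ n : ℕ, m x + n * (m x - m (x + 1)) ≤ m (x - n) := by
        intro n
        induction n with
        | zero => simp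
        | succ n ih =>
          have h := hdown x (n + 1)
          push_cast at h ⊢
          have e2 : x + 1 - ((n : ℤ) + 1) = x - n := by ring
          rw [e2] at h
          have e3 : x - ((n : ℤ) + 1) = x - (n + 1) := by ring
          linarith
      obtain ⟨n, hn⟩ := exists_nat_gt ((2 * C) / (m x - m (x + 1)))
      have hpos : 0 < m x - m (x + 1) := by linarith
      rw [div_lt_iff₀ hpos] at hn
      have h2 := h1 n
      have h3 := abs_le.1 (hb x)
      have h4 := abs_le.1 (hb (x - n))
      linarith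
    · have h1 : ∀ n : ℕ, m x + n * (m (x + 1) - m x) ≤ m (x + n) := by
        intro n
        induction n with
        | zero => simp
        | succ n ih =>
          have h := hup x n
          push_cast at h ⊢
          have e2 : x + 1 + (n : ℤ) = x + (n + 1) := by ring
          rw [e2] at h
          linarith
      obtain ⟨n, hn⟩ := exists_nat_gt ((2 * C) / (m (x + 1) - m x))
      have hpos : 0 < m (x + 1) - m x := by linarith
      rw [div_lt_iff₀ hpos] at hn
      have h2 := h1 n
      have h3 := abs_le.1 (hb x)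
      have h4 := abs_le.1 (hb (x + n))
      linarith
  have h0 : ∀ x, m x = m 0 := by
    intro x
    induction x using Int.induction_on with
    | zero => rfl
    | succ i ih => rw [← ih]; linarith [hzero i]
    | pred i ih =>
      rw [← ih]
      have := hzero (-(i : ℤ) - 1)
      have e : -(i : ℤ) - 1 + 1 = -i := by ring
      rw [e] at this
      linarith
  intro x y
  rw [h0 x, h0 y]

/-! ### Bounded harmonic functions -/

/-- harmonicity, in coordinates -/
def Hm (h : LaurentPolynomial ℤ → ℤ → ℝ) : Prop :=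
  ∀ F x, 4 * h F x = h F (x + 1) + h F (x - 1) + h (F + T x) x + h (F - T x) x

theorem diff_nonpos (f : LaurentPolynomial ℤ → ℤ → ℝ) (C : ℝ) (hb : ∀ F x, |f F x| ≤ C)
    (hf : Hm f) (y : ℤ) (F : LaurentPolynomial ℤ) (x : ℤ) :
    f (F + T y) x - f F x ≤ 0 := by
  set h : LaurentPolynomial ℤ → ℤ → ℝ := fun F x => f (F + T y) x - f F x with hh
  have hHm : Hm h := by
    intro F x
    simp only [hh]
    have h1 := hf (F + T y) x
    have h2 := hf F x
    have e1 : F + T y + T x = F + T x + T y := by ring
    have e2 : F + T y - T x = F - T x + T y := by ring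
    rw [e1, e2] at h1
    linarith
  have hC : 0 ≤ C := le_trans (abs_nonneg _) (hb 0 0)
  have hbd : ∀ F x, |h F x| ≤ 2 * C := by
    intro F x
    simp only [hh]
    have h1 := abs_le.1 (hb (F + T y) x)
    have h2 := abs_le.1 (hb F x)
    rw [abs_le]
    constructor <;> linarith
  have hBdd : ∀ x, BddAbove (Set.range (fun F => h F x)) := by
    intro x
    refine ⟨2 * C, ?_⟩
    rintro _ ⟨F, rfl⟩
    exact (abs_le.1 (hbd F x)).2
  set m : ℤ → ℝ := fun x => ⨆ F, h F x with hm
  have hle : ∀ F x, h F x ≤ m x := fun F x => le_ciSup (hBdd x) F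
  have hmle : ∀ x, m x ≤ 2 * C := fun x => ciSup_le (fun F => (abs_le.1 (hbd F x)).2)
  have hmge : ∀ x, -(2 * C) ≤ m x := fun x => le_trans (abs_le.1 (hbd 0 x)).1 (hle 0 x)
  have hconv : ∀ x, 2 * m x ≤ m (x + 1) + m (x - 1) := by
    intro x
    have h1 : m x ≤ (m (x + 1) + m (x - 1) + 2 * m x) / 4 := by
      apply ciSup_le
      intro F
      have h2 := hHm F x
      have h3 := hle F (x + 1)
      have h4 := hle F (x - 1)
      have h5 := hle (F + T x) x
      have h6 := hle (F - T x) x
      linarith
    linarith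
  have hconst := const_of_convex m (2 * C) (fun x => abs_le.2 ⟨hmge x, hmle x⟩) hconv
  -- the common value is nonpositive
  have hM : m y ≤ 0 := by
    by_contra hpos
    push Not at hpos
    set M := m y with hMdef
    have hall : ∀ F x, h F x ≤ M := fun F x => (hle F x).trans_eq (hconst x y)
    obtain ⟨K, hK⟩ := exists_nat_gt ((2 * C + 1) / M)
    rw [div_lt_iff₀ hpos] at hK
    obtain ⟨F₀, hF₀⟩ := exists_lt_of_lt_ciSup (show M - 1 / 4 ^ K < ⨆ F, h F y by
      have : (0 : ℝ) < 1 / 4 ^ K := by positivity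
      have h1 : (⨆ F, h F y) = M := rfl
      rw [h1]; linarith)
    have hstep : ∀ k : ℕ, M - 4 ^ k / 4 ^ K ≤ h (F₀ + k • T y) y := by
      intro k
      induction k with
      | zero => simp only [zero_smul, add_zero, pow_zero]; exact hF₀.le
      | succ k ih =>
        have h2 := hHm (F₀ + k • T y) y
        have h3 := hall (F₀ + k • T y) (y + 1)
        have h4 := hall (F₀ + k • T y) (y - 1)
        have h6 := hall (F₀ + k • T y - T y) y
        have e : F₀ + (k + 1) • T y = F₀ + k • T y + T y := by
          rw [add_smul, one_smul, add_assoc]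
        rw [e]
        have e2 : (4 : ℝ) ^ (k + 1) / 4 ^ K = 4 * (4 ^ k / 4 ^ K) := by rw [pow_succ]; ring
        rw [e2]
        linarith
    have hsum : ∀ k : ℕ, k ≤ K → f F₀ y + k * M - (4 ^ k / 4 ^ K) ≤ f (F₀ + k • T y) y := by
      intro k
      induction k with
      | zero =>
        intro _
        simp only [Nat.cast_zero, zero_mul, add_zero, zero_smul, pow_zero]
        have : (0 : ℝ) < 1 / 4 ^ K := by positivity
        linarith
      | succ k ih =>
        intro hk
        have h1 := ih (by omega)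
        have h2 := hstep k
        have e : F₀ + (k + 1) • T y = F₀ + k • T y + T y := by
          rw [add_smul, one_smul, add_assoc]
        have h3 : h (F₀ + k • T y) y = f (F₀ + k • T y + T y) y - f (F₀ + k • T y) y := rfl
        rw [h3] at h2
        rw [e]
        have e2 : (4 : ℝ) ^ (k + 1) / 4 ^ K = 4 * (4 ^ k / 4 ^ K) := by rw [pow_succ]; ring
        have h5 : (0 : ℝ) ≤ 4 ^ k / 4 ^ K := by positivity
        rw [e2]
        push_cast
        linarith
    have h1 := hsum K le_rfl
    have h2 := (abs_le.1 (hb F₀ y)).1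
    have h3 := (abs_le.1 (hb (F₀ + K • T y) y)).2
    have h4 : (4 : ℝ) ^ K / 4 ^ K = 1 := div_self (by positivity)
    rw [h4] at h1
    linarith
  have h1 := hle F x
  rw [hconst x y] at h1
  exact h1.trans hM

theorem Hm_neg {f : LaurentPolynomial ℤ → ℤ → ℝ} (hf : Hm f) : Hm (fun F x => -f F x) := by
  intro F x
  have := hf F x
  linarith

theorem lamp_inv (f : LaurentPolynomial ℤ → ℤ → ℝ) (C : ℝ) (hb : ∀ F x, |f F x| ≤ C)
    (hf : Hm f) (y : ℤ) (F : LaurentPolynomial ℤ) (x : ℤ) : f (F + T y) x = f F x := by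
  have h1 := diff_nonpos f C hb hf y F x
  have h2 := diff_nonpos (fun F x => -f F x) C (fun F x => by rw [abs_neg]; exact hb F x)
    (Hm_neg hf) y F x
  linarith

theorem lamp_inv_zsmul (f : LaurentPolynomial ℤ → ℤ → ℝ) (C : ℝ) (hb : ∀ F x, |f F x| ≤ C)
    (hf : Hm f) (y : ℤ) (x : ℤ) (n : ℤ) : ∀ F, f (F + n • T y) x = f F x := by
  induction n using Int.induction_on with
  | zero => intro F; simp
  | succ i ih =>
    intro F
    have e : F + ((i : ℤ) + 1) • T y = (F + (i : ℤ) • T y) + T y := by
      rw [add_smul, one_smul, add_assoc]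
    rw [e, lamp_inv f C hb hf, ih]
  | pred i ih =>
    intro F
    have e : F + (-(i : ℤ)) • T y = (F + (-(i : ℤ) - 1) • T y) + T y := by
      rw [sub_smul, one_smul]; abel
    have h := lamp_inv f C hb hf y (F + (-(i : ℤ) - 1) • T y) x
    rw [← e, ih] at h
    exact h.symm

theorem lamps_inv (f : LaurentPolynomial ℤ → ℤ → ℝ) (C : ℝ) (hb : ∀ F x, |f F x| ≤ C)
    (hf : Hm f) (x : ℤ) (G : LaurentPolynomial ℤ) : ∀ F, f (F + G) x = f F x := by
  induction G using LaurentPolynomial.induction_on' with
  | add p q hp hq =>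
    intro F
    rw [← add_assoc, hq, hp]
  | C_mul_T n a =>
    intro F
    have e : (LaurentPolynomial.C a * T n : LaurentPolynomial ℤ) = a • T n := by
      rw [LaurentPolynomial.smul_eq_C_mul]
    rw [e]
    exact lamp_inv_zsmul f _ hb hf n x a F

theorem liouville_aux (f : LaurentPolynomial ℤ → ℤ → ℝ) (C : ℝ) (hb : ∀ F x, |f F x| ≤ C)
    (hf : Hm f) (F : LaurentPolynomial ℤ) (x : ℤ) : f F x = f 0 0 := by
  have h1 : ∀ F x, f F x = f 0 x := by
    intro F x
    have := lamps_inv f C hb hf x F 0
    rw [zero_add] at this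
    exact this
  have h2 := const_of_convex (fun x => f 0 x) C (fun x => hb 0 x) (by
    intro x
    have h3 := hf 0 x
    rw [h1 (0 + T x) x, h1 (0 - T x) x] at h3
    linarith)
  rw [h1 F x]
  exact h2 x 0

theorem liouville (f : W → ℝ) (C : ℝ) (hb : ∀ g, |f g| ≤ C)
    (hh : ∀ g, 4 * f g = f (g * W.t) + f (g * W.t⁻¹) + f (g * W.a) + f (g * W.a⁻¹)) :
    ∀ g, f g = f 1 := by
  intro g
  have h := liouville_aux (fun F x => f ⟨F, x⟩) C (fun F x => hb _) (by
    intro F x
    have := hh ⟨F, x⟩
    rw [W.mul_t, W.mul_t_inv, W.mul_a, W.mul_a_inv] at this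
    exact this) g.F g.s
  exact h

/-! ### Generation -/

theorem T_mem (C : Subgroup W) (ht : W.t ∈ C) (n : ℤ) : (⟨0, n⟩ : W) ∈ C := by
  have h : ∀ n : ℤ, W.t ^ n = ⟨0, n⟩ := by
    intro n
    induction n using Int.induction_on with
    | zero => rfl
    | succ i ih => rw [zpow_add_one, ih, W.mul_t]
    | pred i ih => rw [zpow_sub_one, ih, W.mul_t_inv]
  rw [← h n]
  exact C.zpow_mem ht n

theorem closure_ta (C : Subgroup W) (ht : W.t ∈ C) (ha : W.a ∈ C) : C = ⊤ := by
  have h1 : ∀ n : ℤ, (⟨T n, 0⟩ : W) ∈ C := by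
    intro n
    have h2 := C.mul_mem (C.mul_mem (T_mem C ht n) ha) (T_mem C ht (-n))
    have e : (⟨0, n⟩ : W) * W.a * ⟨0, -n⟩ = ⟨T n, 0⟩ := by
      rw [W.mul_a]
      ext1 <;> simp
    rwa [e] at h2
  have h2 : ∀ (n k : ℤ), (⟨k • T n, 0⟩ : W) ∈ C := by
    intro n k
    have h : ∀ k : ℤ, (⟨T n, 0⟩ : W) ^ k = ⟨k • T n, 0⟩ := by
      intro k
      induction k using Int.induction_on with
      | zero =>
        rw [zpow_zero]
        ext1 <;> simp
      | succ i ih =>
        rw [zpow_add_one, ih]
        ext1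
        · simp only [W.mul_F, T_zero, one_mul, add_smul, one_smul]
        · simp
      | pred i ih =>
        rw [zpow_sub_one, ih]
        ext1
        · simp only [W.mul_F, W.inv_F, neg_zero, T_zero, one_mul, sub_smul, one_smul]
          ring
        · simp
    rw [← h k]
    exact C.zpow_mem (h1 n) k
  have h3 : ∀ F : LaurentPolynomial ℤ, (⟨F, 0⟩ : W) ∈ C := by
    intro F
    induction F using LaurentPolynomial.induction_on' with
    | add p q hp hq =>
      have := C.mul_mem hp hq
      have e : (⟨p, 0⟩ : W) * ⟨q, 0⟩ = ⟨p + q, 0⟩ := by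
        ext1 <;> simp [T_zero]
      rwa [e] at this
    | C_mul_T n a =>
      have e : (LaurentPolynomial.C a * T n : LaurentPolynomial ℤ) = a • T n := by
        rw [LaurentPolynomial.smul_eq_C_mul]
      rw [e]
      exact h2 n a
  rw [eq_top_iff]
  intro g _
  have := C.mul_mem (h3 g.F) (T_mem C ht g.s)
  have e : (⟨g.F, 0⟩ : W) * ⟨0, g.s⟩ = g := by
    ext1 <;> simp
  rwa [e] at this

theorem countable_W : Countable W := by
  have h : Function.Injective (fun g : W => ((g.F.coeff : ℤ →₀ ℤ), g.s)) := by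
    intro g g' h
    simp only [Prod.mk.injEq] at h
    ext1
    · exact LaurentPolynomial.ext (fun a => by rw [h.1])
    · exact h.2
  exact h.countable

end Pool.Agent.H582AR
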